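import Mathlib
import Pool.Agent.Helper31.Spectra
import Pool.Agent.Helper4.PumpDefs
import Pool.Agent.Helper4.PumpMain

set_option autoImplicit false

namespace Pool.Agent.Helper4.Old.RepeatableSegments

open FirstOrder FirstOrder.Language
open Pool.Agent.Helper31.Spectra Pool.Agent.Helper4.Pump

/-- **A pumping theorem for spectra.** Let `φ` be any first-order sentence over a finite
relational vocabulary such that every finite model of `φ` with more than `b` elements has a
repeatable segment with interfaces of at most `c` elements. Then the spectrum of `φ` is ultimately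
periodic and its complement is a spectrum. -/
theorem result (L : FirstOrder.Language.{0, 0}) [L.IsRelational]
    (hrel : Finite (Σ n, L.Relations n)) (φ : L.Sentence) (b c : ℕ)
    (hφ : HasRepeatableSegments φ b c) :
    (∃ N p : ℕ, 0 < p ∧ ∀ n : ℕ, N ≤ n →
      ((∃ (M : Type) (_ : L.Structure M), Nat.card M = n ∧ φ.Realize M) ↔
        (∃ (M : Type) (_ : L.Structure M), Nat.card M = n + p ∧ φ.Realize M))) ∧
    ∃ (L' : FirstOrder.Language.{0, 0}) (ψ : L'.Sentence),
      Finite (Σ n, L'.Functions n) ∧ Finite (Σ n, L'.Relations n) ∧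
      ∀ n : ℕ,
        (0 < n ∧ ∃ (M : Type) (_ : L'.Structure M), Nat.card M = n ∧ ψ.Realize M) ↔
          (0 < n ∧ ¬ ∃ (M : Type) (_ : L.Structure M), Nat.card M = n ∧ φ.Realize M) := by
  obtain ⟨p, hp, hB⟩ := spec_step hrel φ b c hφ
  constructor
  · obtain ⟨N, hN⟩ := eventually_periodic _ b p hp hB
    refine ⟨N + 1, p, hp, fun n hn => ?_⟩
    have h := hN n (by omega)
    constructor
    · intro h1
      exact (h.1 ⟨by omega, h1⟩).2
    · intro h1
      exact (h.2 ⟨by omega, h1⟩).2
  · obtain ⟨L', ψ, hL', hψ⟩ := (isSpectrum_compl (Spec L φ) (fun h => by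
      exact absurd h.1 (lt_irrefl 0)) b p hp hB).2
    refine ⟨L', ψ, hL'.1, hL'.2, fun n => ?_⟩
    have h := Set.ext_iff.1 hψ n
    constructor
    · intro h1
      obtain ⟨h2, h3⟩ := h.1 h1
      exact ⟨h2, fun h4 => h3 ⟨h2, h4⟩⟩
    · rintro ⟨h1, h2⟩
      exact h.2 ⟨h1, fun h3 => h2 h3.2⟩

end Pool.Agent.Helper4.Old.RepeatableSegments
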